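import Pool.Agent.P.MP_fabcd1_nt.Main

namespace Pool.Agent.Results.MP_fabcd1_nt.SquaresNotPeriodic

open Classical in
/-- `pS S a m n` is the number of partitions of `n` with all parts in `S` whose number of parts
is congruent to `a` modulo `m` (for `0 ≤ a ≤ m - 1`). -/
noncomputable def pS (S : Set ℕ) (a m n : ℕ) : ℕ :=
  (Finset.univ.filter fun P : Nat.Partition n =>
    (∀ i ∈ P.parts, i ∈ S) ∧ P.parts.card % m = a).card

/-- `u S m n` is the permutation `t ↦ i_t` that lists the residues `0, …, m - 1` by decreasing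
value of `pS S · m n`, equal values being listed with the smaller index first
(`Tuple.sort` is the stable increasing sort, applied here in the reversed order on `ℕ`). -/
noncomputable def u (S : Set ℕ) (m n : ℕ) : Equiv.Perm (Fin m) :=
  Tuple.sort fun a : Fin m => OrderDual.toDual (pS S a m n)

/-- For partitions into squares and `m = 3` the sequence `u_n` is not eventually periodic. -/
theorem result :
    ¬ ∃ T N : ℕ, 0 < T ∧ ∀ n : ℕ, N ≤ n →
      u {s : ℕ | ∃ j : ℕ, 1 ≤ j ∧ s = j ^ 2} 3 (n + T) =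
        u {s : ℕ | ∃ j : ℕ, 1 ≤ j ∧ s = j ^ 2} 3 n := by
  rintro ⟨T, N, hT, h⟩
  refine Pool.Agent.P.MP_fabcd1_nt.argmax_not_periodic
    (fun n => u Pool.Agent.P.MP_fabcd1_nt.Sq 3 n 0) T N hT
    (fun n hn => congrArg (fun σ : Equiv.Perm (Fin 3) => σ 0) (h n hn)) fun n _ j => ?_
  have hm := Tuple.monotone_sort
    (fun a : Fin 3 => OrderDual.toDual (pS Pool.Agent.P.MP_fabcd1_nt.Sq a 3 n))
    (Fin.zero_le ((u Pool.Agent.P.MP_fabcd1_nt.Sq 3 n).symm j))
  have h2 : pS Pool.Agent.P.MP_fabcd1_nt.Sq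
      (u Pool.Agent.P.MP_fabcd1_nt.Sq 3 n ((u Pool.Agent.P.MP_fabcd1_nt.Sq 3 n).symm j)) 3 n ≤
      pS Pool.Agent.P.MP_fabcd1_nt.Sq (u Pool.Agent.P.MP_fabcd1_nt.Sq 3 n 0) 3 n := hm
  rw [Equiv.apply_symm_apply] at h2
  exact h2

end Pool.Agent.Results.MP_fabcd1_nt.SquaresNotPeriodic
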